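import Pool.Agent.H3.HG.Targets

/-!
Row NOE of the board on lower central genera: finitely generated nilpotent groups are noetherian.
-/

namespace Pool.Agent.H27.HG

open Pool.Agent.H3.HG
open scoped commutatorElement

/-- The image of a finitely generated subgroup is finitely generated. -/
lemma fg_map {G G' : Type} [Group G] [Group G'] (f : G →* G') {K : Subgroup G} (h : K.FG) :
    (K.map f).FG := by
  classical
  obtain ⟨S, rfl⟩ := h
  refine ⟨S.image f, ?_⟩
  rw [MonoidHom.map_closure, Finset.coe_image]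

/-- Lift generators. -/
lemma exists_gens {G G' : Type} [Group G] [Group G'] (f : G →* G') {K : Subgroup G}
    (h : (K.map f).FG) : ∃ Y : Finset G, (Y : Set G) ⊆ K ∧
      K ≤ Subgroup.closure (Y : Set G) ⊔ (K ⊓ f.ker) := by
  classical
  obtain ⟨S, hS⟩ := h
  have h1 : ∀ s ∈ S, ∃ y ∈ K, f y = s := fun s hs => by
    have : s ∈ K.map f := by
      rw [← hS]
      exact Subgroup.subset_closure hs
    exact this
  choose! g hgK hg using h1
  refine ⟨S.image g, ?_, ?_⟩
  · intro y hy
    rw [Finset.coe_image] at hy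
    obtain ⟨s, hs, rfl⟩ := hy
    exact hgK s hs
  · intro x hx
    have h2 : f x ∈ (Subgroup.closure ((S.image g : Finset G) : Set G)).map f := by
      rw [MonoidHom.map_closure, Finset.coe_image, ← Set.image_comp]
      have h3 : (f ∘ g) '' (S : Set G') = S := by
        have : Set.EqOn (f ∘ g) id (S : Set G') := fun s hs => hg s hs
        rw [this.image_eq, Set.image_id]
      rw [h3, hS]
      exact ⟨x, hx, rfl⟩
    obtain ⟨y, hy, hyx⟩ := h2
    have hyK : y ∈ K := by
      have h4 : Subgroup.closure ((S.image g : Finset G) : Set G) ≤ K := by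
        rw [Subgroup.closure_le, Finset.coe_image]
        rintro _ ⟨s, hs, rfl⟩
        exact hgK s hs
      exact h4 hy
    have h5 : x = y * (y⁻¹ * x) := by group
    rw [h5]
    have h6 : y⁻¹ * x ∈ K := mul_mem (inv_mem hyK) hx
    have h7 : y⁻¹ * x ∈ f.ker := by
      rw [MonoidHom.mem_ker, map_mul, map_inv, hyx, inv_mul_cancel]
    exact Subgroup.mul_mem_sup hy (Subgroup.mem_inf.2 ⟨h6, h7⟩)

/-- Extensions of finitely generated groups. -/
lemma fg_of_ext {G G' : Type} [Group G] [Group G'] (f : G →* G') {K : Subgroup G}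
    (h : (K.map f).FG) (h2 : (K ⊓ f.ker).FG) : K.FG := by
  obtain ⟨Y, hY, hle⟩ := exists_gens f h
  have h3 : K = Subgroup.closure (Y : Set G) ⊔ (K ⊓ f.ker) :=
    le_antisymm hle (sup_le ((Subgroup.closure_le K).2 hY) inf_le_left)
  rw [h3]
  exact Subgroup.FG.sup ⟨Y, rfl⟩ h2

/-- Subgroups of finitely generated commutative groups. -/
lemma fg_of_comm {C : Type} [CommGroup C] [Group.FG C] (K : Subgroup C) : K.FG := by
  have h1 : AddGroup.FG (Additive C) := inferInstance
  have h2 : Module.Finite ℤ (Additive C) := Module.Finite.iff_addGroup_fg.2 h1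
  have h3 : IsNoetherian ℤ (Additive C) := isNoetherian_of_isNoetherianRing_of_finite ℤ _
  have h4 := IsNoetherian.noetherian (AddSubgroup.toIntSubmodule (Subgroup.toAddSubgroup K))
  rw [Submodule.fg_iff_addSubgroup_fg] at h4
  rw [Subgroup.fg_iff_add_fg]
  exact h4

/-- Subgroups of a finitely generated central subgroup. -/
lemma fg_of_central {G : Type} [Group G] {K L : Subgroup G} (hK : K.FG)
    (hc : ∀ k ∈ K, ∀ g : G, k * g = g * k) (hL : L ≤ K) : L.FG := by
  let _ : CommGroup K :=
    { (inferInstance : Group K) with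
      mul_comm := fun a b => Subtype.ext (hc a a.2 b) }
  have : Group.FG K := (Group.fg_iff_subgroup_fg K).2 hK
  have h1 : (L.subgroupOf K).FG := fg_of_comm (C := K) (L.subgroupOf K)
  have h2 := fg_map K.subtype h1
  rwa [Subgroup.map_subgroupOf_eq_of_le hL] at h2

/-- The last nontrivial term of the lower central series is finitely generated. -/
lemma fg_last {Q : Type} [Group Q] [Group.FG Q] (m : ℕ)
    (hc : ∀ k ∈ (⊤ : Subgroup Q).lowerCentralSeries (m + 1), ∀ g : Q, k * g = g * k)
    (hfg : (((⊤ : Subgroup Q).lowerCentralSeries m).map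
      (QuotientGroup.mk' ((⊤ : Subgroup Q).lowerCentralSeries (m + 1)))).FG) :
    ((⊤ : Subgroup Q).lowerCentralSeries (m + 1)).FG := by
  classical
  obtain ⟨Y, hY, hle⟩ := exists_gens _ hfg
  obtain ⟨X, hX⟩ := (Group.fg_def (G := Q)).1 inferInstance
  set L := (⊤ : Subgroup Q).lowerCentralSeries m with hL
  set K := (⊤ : Subgroup Q).lowerCentralSeries (m + 1) with hK
  have hLK : ∀ a ∈ L, ∀ q : Q, ⁅a, q⁆ ∈ K := fun a ha q =>
    Subgroup.commutator_mem_commutator ha (Subgroup.mem_top q)
  have hKL : K ≤ L := Subgroup.lowerCentralSeries_antitone _ (Nat.le_succ m)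
  refine ⟨(Y ×ˢ X).image (fun p => ⁅p.1, p.2⁆), le_antisymm ?_ ?_⟩
  · rw [Subgroup.closure_le, Finset.coe_image]
    rintro _ ⟨p, hp, rfl⟩
    have hp' := Finset.mem_product.1 (Finset.mem_coe.1 hp)
    exact hLK _ (hY hp'.1) _
  · set C := Subgroup.closure (((Y ×ˢ X).image (fun p => ⁅p.1, p.2⁆) : Finset Q) : Set Q) with hC
    have hYX : ∀ y ∈ Y, ∀ x ∈ X, ⁅y, x⁆ ∈ C := fun y hy x hx =>
      Subgroup.subset_closure (by
        rw [Finset.coe_image]
        exact ⟨(y, x), Finset.mem_coe.2 (Finset.mem_product.2 ⟨hy, hx⟩), rfl⟩)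
    have hYq : ∀ y ∈ Y, ∀ q : Q, ⁅y, q⁆ ∈ C := by
      intro y hy q
      have hq : q ∈ Subgroup.closure (X : Set Q) := by rw [hX]; exact Subgroup.mem_top q
      induction hq using Subgroup.closure_induction with
      | mem x hx => exact hYX y hy x hx
      | one => rw [commutatorElement_one_right]; exact one_mem _
      | mul a b _ _ ha hb =>
        have h1 : ⁅y, a * b⁆ = ⁅y, a⁆ * (a * ⁅y, b⁆ * a⁻¹) := by
          simp only [commutatorElement_def]
          group
        have h2 : a * ⁅y, b⁆ * a⁻¹ = ⁅y, b⁆ := by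
          rw [← hc _ (hLK y (hY hy) b) a]
          group
        rw [h1, h2]
        exact mul_mem ha hb
      | inv a _ ha =>
        have h1 : ⁅y, a⁻¹⁆ = (a⁻¹ * ⁅y, a⁆ * a)⁻¹ := by
          simp only [commutatorElement_def]
          group
        have h2 : a⁻¹ * ⁅y, a⁆ * a = ⁅y, a⁆ := by
          rw [mul_assoc, hc _ (hLK y (hY hy) a) a]
          group
        rw [h1, h2]
        exact inv_mem ha
    have hclY : ∀ a ∈ Subgroup.closure (Y : Set Q), a ∈ L ∧ ∀ q : Q, ⁅a, q⁆ ∈ C := by
      intro a ha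
      induction ha using Subgroup.closure_induction with
      | mem x hx => exact ⟨hY hx, hYq x hx⟩
      | one =>
        refine ⟨one_mem _, fun q => ?_⟩
        rw [commutatorElement_one_left]
        exact one_mem _
      | mul a b _ _ ha hb =>
        refine ⟨mul_mem ha.1 hb.1, fun q => ?_⟩
        have h1 : ⁅a * b, q⁆ = (a * ⁅b, q⁆ * a⁻¹) * ⁅a, q⁆ := by
          simp only [commutatorElement_def]
          group
        have h2 : a * ⁅b, q⁆ * a⁻¹ = ⁅b, q⁆ := by
          rw [← hc _ (hLK b hb.1 q) a]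
          group
        rw [h1, h2]
        exact mul_mem (hb.2 q) (ha.2 q)
      | inv a _ ha =>
        refine ⟨inv_mem ha.1, fun q => ?_⟩
        have h1 : ⁅a⁻¹, q⁆ = (a⁻¹ * ⁅a, q⁆ * a)⁻¹ := by
          simp only [commutatorElement_def]
          group
        have h2 : a⁻¹ * ⁅a, q⁆ * a = ⁅a, q⁆ := by
          rw [mul_assoc, hc _ (hLK a ha.1 q) a]
          group
        rw [h1, h2]
        exact inv_mem (ha.2 q)
    have hall : ∀ a ∈ L, ∀ q : Q, ⁅a, q⁆ ∈ C := by
      intro a ha q
      have h1 := hle ha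
      rw [QuotientGroup.ker_mk', inf_eq_right.2 hKL] at h1
      obtain ⟨y, hy, k, hk, rfl⟩ := Subgroup.mem_sup_of_normal_right.1 h1
      have h2 : ⁅y * k, q⁆ = ⁅y, q⁆ := by
        have h3 : k * q = q * k := hc k hk q
        have h4 : k * q * k⁻¹ = q := by rw [h3]; group
        simp only [commutatorElement_def]
        calc y * k * q * (y * k)⁻¹ * q⁻¹ = y * (k * q * k⁻¹) * y⁻¹ * q⁻¹ := by group
          _ = y * q * y⁻¹ * q⁻¹ := by rw [h4]
      rw [h2]
      exact (hclY y hy).2 q
    rw [hK, Subgroup.lowerCentralSeries_succ, Subgroup.commutator_le]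
    intro a ha q _
    exact hall a ha q

lemma noe_aux (n : ℕ) : ∀ (Q : Type) [Group Q] [Group.FG Q],
    (⊤ : Subgroup Q).lowerCentralSeries n = ⊥ → ∀ K : Subgroup Q, K.FG := by
  induction n with
  | zero =>
    intro Q _ _ h K
    have h1 : (⊤ : Subgroup Q) = ⊥ := h
    have h2 : K = ⊥ := by
      rw [eq_bot_iff, ← h1]
      exact le_top
    rw [h2]
    exact Subgroup.FG.bot
  | succ n ih =>
    intro Q _ _ h P
    set K := (⊤ : Subgroup Q).lowerCentralSeries n with hK
    have hc : ∀ k ∈ K, ∀ g : Q, k * g = g * k := by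
      intro k hk g
      have h1 : ⁅k, g⁆ ∈ (⊤ : Subgroup Q).lowerCentralSeries (n + 1) :=
        Subgroup.commutator_mem_commutator hk (Subgroup.mem_top g)
      rw [h, Subgroup.mem_bot] at h1
      exact commutatorElement_eq_one_iff_mul_comm.1 h1
    have hq : (⊤ : Subgroup (Q ⧸ K)).lowerCentralSeries n = ⊥ := by
      have h1 := Subgroup.map_lowerCentralSeries (⊤ : Subgroup Q) (QuotientGroup.mk' K) n
      rw [Subgroup.map_top_of_surjective _ (QuotientGroup.mk'_surjective K)] at h1
      rw [← h1, ← hK, QuotientGroup.map_mk'_self]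
    have hall := ih (Q ⧸ K) hq
    have hKfg : K.FG := by
      cases n with
      | zero => exact (Group.fg_def (G := Q)).1 inferInstance
      | succ m => exact fg_last m hc (hall _)
    refine fg_of_ext (QuotientGroup.mk' K) (hall _) ?_
    rw [QuotientGroup.ker_mk']
    exact fg_of_central hKfg hc inf_le_right

theorem pf_NOE : T_NOE := by
  intro Q _ _ _ K
  obtain ⟨n, hn⟩ := Subgroup.nilpotent_iff_lowerCentralSeries.1 (inferInstance : Group.IsNilpotent Q)
  exact noe_aux n Q hn K

end Pool.Agent.H27.HG
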