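import Pool.Agent.H3.HG.Targets

/-!
Row GRP of the board on lower central genera: the group form of the weak Artin–Rees property.
-/

namespace Pool.Agent.H27.HG

open Pool.Agent.H3.HG
open scoped commutatorElement

section GRP

variable {G : Type} [Group G]

/-- The commutative group structure. -/
abbrev cgA (A : Subgroup G) (hc : ∀ a ∈ A, ∀ b ∈ A, a * b = b * a) : CommGroup A :=
  { (inferInstance : Group A) with
    mul_comm := fun a b => Subtype.ext (hc a a.2 b b.2) }

/-- Conjugation. -/
def cj (A : Subgroup G) [hA : A.Normal] (g : G) (a : A) : A :=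
  ⟨g * a * g⁻¹, hA.conj_mem a a.2 g⟩

lemma cj_eq {A : Subgroup G} [hA : A.Normal] (hc : ∀ a ∈ A, ∀ b ∈ A, a * b = b * a) {g g' : G}
    (h : g⁻¹ * g' ∈ A) (a : A) : cj A g a = cj A g' a := by
  apply Subtype.ext
  show g * (a : G) * g⁻¹ = g' * a * g'⁻¹
  have h1 : g' = g * (g⁻¹ * g') := by group
  have h2 := hc _ h a a.2
  set b := g⁻¹ * g' with hb
  rw [h1]
  calc g * (a : G) * g⁻¹ = g * ((a : G) * b) * b⁻¹ * g⁻¹ := by group
    _ = g * (b * (a : G)) * b⁻¹ * g⁻¹ := by rw [h2]
    _ = g * b * a * (g * b)⁻¹ := by group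

/-- The action of the quotient on the abelian normal subgroup. -/
abbrev dma (A : Subgroup G) [A.Normal] (hc : ∀ a ∈ A, ∀ b ∈ A, a * b = b * a) :
    DistribMulAction (G ⧸ A) (Additive A) where
  smul q a := Quotient.liftOn' q (fun g => Additive.ofMul (cj A g (Additive.toMul a)))
    (fun g g' h => by
      show Additive.ofMul _ = Additive.ofMul _
      rw [cj_eq hc (QuotientGroup.leftRel_apply.1 h)])
  one_smul a := by
    show Additive.ofMul (cj A 1 (Additive.toMul a)) = a
    have h : cj A 1 (Additive.toMul a) = Additive.toMul a := by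
      apply Subtype.ext
      show 1 * ((Additive.toMul a : A) : G) * 1⁻¹ = _
      group
    rw [h]
    rfl
  mul_smul p q a := by
    induction p using QuotientGroup.induction_on with
    | H g =>
      induction q using QuotientGroup.induction_on with
      | H g' =>
        show Additive.ofMul (cj A (g * g') (Additive.toMul a)) =
          Additive.ofMul (cj A g (cj A g' (Additive.toMul a)))
        congr 1
        apply Subtype.ext
        show g * g' * ((Additive.toMul a : A) : G) * (g * g')⁻¹ =
          g * (g' * ((Additive.toMul a : A) : G) * g'⁻¹) * g⁻¹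
        group
  smul_zero q := by
    induction q using QuotientGroup.induction_on with
    | H g =>
      show Additive.ofMul (cj A g 1) = Additive.ofMul 1
      congr 1
      apply Subtype.ext
      show g * 1 * g⁻¹ = 1
      group
  smul_add q a b := by
    induction q using QuotientGroup.induction_on with
    | H g =>
      show Additive.ofMul (cj A g (Additive.toMul a * Additive.toMul b)) =
        Additive.ofMul (cj A g (Additive.toMul a) * cj A g (Additive.toMul b))
      congr 1
      apply Subtype.ext
      show g * (((Additive.toMul a : A) : G) * ((Additive.toMul b : A) : G)) * g⁻¹ =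
        (g * ((Additive.toMul a : A) : G) * g⁻¹) * (g * ((Additive.toMul b : A) : G) * g⁻¹)
      group

end GRP

theorem pf_GRP (hNOE : T_NOE) (hNFG : T_NFG) (hPOL : T_POL) (hWAR : T_WAR) : T_GRP := by
  intro G _ _ A hA hc hnil B hBA hBZ
  let _ : CommGroup A := cgA A hc
  let _ : DistribMulAction (G ⧸ A) (Additive A) := dma A hc
  have hsm : ∀ (g : G) (a : A), (QuotientGroup.mk g : G ⧸ A) • (Additive.ofMul a) =
      Additive.ofMul (cj A g a) := fun g a => rfl
  have hall : ∀ K : Subgroup (G ⧸ A), K.FG := fun K => hNOE (G ⧸ A) K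
  -- the group of all elements of `A` lying in an additive subgroup
  have hP : ∀ (P : AddSubgroup (Additive A)) (x : G),
      x ∈ (AddSubgroup.toSubgroup' P).map A.subtype ↔
        ∃ a : A, Additive.ofMul a ∈ P ∧ (a : G) = x := by
    intro P x
    rw [Subgroup.mem_map]
    rfl
  obtain ⟨T, hTf, hT⟩ := hNFG G A hnil
  have hTA : T ⊆ A := by
    rw [← hT]
    exact Subgroup.subset_normalClosure
  set S : Set (Additive A) := {x | ((Additive.toMul x : A) : G) ∈ T} with hS
  have hSf : S.Finite := by
    refine Set.Finite.preimage ?_ hTf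
    intro x _ y _ hxy
    exact Additive.toMul.injective (Subtype.ext hxy)
  have hA0 : (AddSubgroup.closure S).FG := (AddSubgroup.fg_iff _).2 ⟨S, rfl, hSf⟩
  have hstab : ∀ (g : G), ∀ x ∈ Sp (⊤ : Subgroup (G ⧸ A)) (AddSubgroup.closure S),
      (QuotientGroup.mk g : G ⧸ A) • x ∈ Sp (⊤ : Subgroup (G ⧸ A)) (AddSubgroup.closure S) := by
    intro g x hx
    unfold Sp at hx ⊢
    induction hx using AddSubgroup.closure_induction with
    | mem x hx =>
      obtain ⟨q, _, m, hm, rfl⟩ := hx
      refine AddSubgroup.subset_closure ⟨(QuotientGroup.mk g : G ⧸ A) * q, Subgroup.mem_top _,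
        m, hm, ?_⟩
      rw [mul_smul]
    | zero => rw [smul_zero]; exact zero_mem _
    | add x y _ _ hx hy => rw [smul_add]; exact add_mem hx hy
    | neg x _ hx => rw [smul_neg]; exact neg_mem hx
  have htop : Sp (⊤ : Subgroup (G ⧸ A)) (AddSubgroup.closure S) = ⊤ := by
    rw [eq_top_iff]
    intro x _
    have hnorm : ((AddSubgroup.toSubgroup' (Sp (⊤ : Subgroup (G ⧸ A))
        (AddSubgroup.closure S))).map A.subtype).Normal := by
      refine ⟨fun n hn g => ?_⟩
      obtain ⟨a, ha, rfl⟩ := (hP _ _).1 hn
      exact (hP _ _).2 ⟨cj A g a, hstab g _ ha, rfl⟩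
    have h1 : Subgroup.normalClosure T ≤ (AddSubgroup.toSubgroup' (Sp (⊤ : Subgroup (G ⧸ A))
        (AddSubgroup.closure S))).map A.subtype := by
      refine Subgroup.normalClosure_le_normal ?_
      intro y hy
      refine (hP _ _).2 ⟨⟨y, hTA hy⟩, ?_, rfl⟩
      refine AddSubgroup.subset_closure ⟨1, Subgroup.mem_top _, Additive.ofMul ⟨y, hTA hy⟩,
        AddSubgroup.subset_closure hy, ?_⟩
      rw [one_smul]
    rw [hT] at h1
    obtain ⟨a, ha, hax⟩ := (hP _ _).1 (h1 (Additive.toMul x : A).2)
    have h2 : a = Additive.toMul x := Subtype.ext hax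
    rw [h2] at ha
    exact ha
  have hmax := hPOL (G ⧸ A) (Additive A) hall (AddSubgroup.closure S) hA0 htop
  obtain ⟨k, hk⟩ := hWAR (G ⧸ A) (Additive A) hall hmax
    (Subgroup.toAddSubgroup (B.subgroupOf A)) (by
      intro q b hb
      induction q using QuotientGroup.induction_on with
      | H g =>
        have hb' : ((Additive.toMul b : A) : G) ∈ B := hb
        show Additive.ofMul (cj A g (Additive.toMul b)) = b
        have h1 : cj A g (Additive.toMul b) = Additive.toMul b := by
          apply Subtype.ext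
          show g * ((Additive.toMul b : A) : G) * g⁻¹ = _
          have h2 := Subgroup.mem_center_iff.1 (hBZ hb') g
          rw [h2]
          group
        rw [h1]
        rfl)
  have hcs : ∀ n, cs A n ≤ (AddSubgroup.toSubgroup' (DD (G ⧸ A) (Additive A) n)).map
      A.subtype := by
    intro n
    induction n with
    | zero =>
      intro x hx
      exact (hP _ _).2 ⟨⟨x, hx⟩, AddSubgroup.mem_top _, rfl⟩
    | succ n ih =>
      show ⁅cs A n, (⊤ : Subgroup G)⁆ ≤ _
      rw [Subgroup.commutator_le]
      intro x hx g _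
      obtain ⟨a, ha, rfl⟩ := (hP _ _).1 (ih hx)
      refine (hP _ _).2 ⟨a * (cj A g a)⁻¹, ?_, ?_⟩
      · have h1 : (Additive.ofMul (a * (cj A g a)⁻¹) : Additive A) =
            -((QuotientGroup.mk g : G ⧸ A) • Additive.ofMul a - Additive.ofMul a) := by
          rw [hsm, neg_sub, ofMul_mul, ofMul_inv, sub_eq_add_neg]
        rw [h1]
        exact neg_mem (AddSubgroup.subset_closure ⟨_, _, ha, rfl⟩)
      · show (a : G) * (g * a * g⁻¹)⁻¹ = ⁅(a : G), g⁆
        rw [commutatorElement_def]
        group
  refine ⟨k, ?_⟩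
  rw [eq_bot_iff]
  intro x hx
  obtain ⟨h1, h2⟩ := Subgroup.mem_inf.1 hx
  obtain ⟨a, ha, rfl⟩ := (hP _ _).1 (hcs k h1)
  have h3 := hk (Additive.ofMul a) h2 ha
  have h4 : a = 1 := Additive.ofMul.injective h3
  rw [h4]
  exact one_mem _

end Pool.Agent.H27.HG
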