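import Pool.Agent.H3.HG.Targets

/-!
Row HBS of the board on lower central genera: the Hilbert basis step.
-/

namespace Pool.Agent.H27.HG

open Pool.Agent.H3.HG

section HBS

variable {Q A : Type} [Group Q] [AddCommGroup A] [DistribMulAction Q A]

/-- Sum of the first `n` translates. -/
def VV (t : Q) (A0 : AddSubgroup A) : ℕ → AddSubgroup A
  | 0 => ⊥
  | n + 1 => VV t A0 n ⊔ A0.map (DistribSMul.toAddMonoidHom A (t ^ n))

lemma VV_succ_mem {t : Q} {A0 : AddSubgroup A} {n : ℕ} {x : A} :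
    x ∈ VV t A0 (n + 1) ↔ ∃ v ∈ VV t A0 n, ∃ m ∈ A0, v + t ^ n • m = x := by
  show x ∈ VV t A0 n ⊔ A0.map (DistribSMul.toAddMonoidHom A (t ^ n)) ↔ _
  rw [AddSubgroup.mem_sup]
  constructor
  · rintro ⟨v, hv, w, hw, rfl⟩
    obtain ⟨m, hm, rfl⟩ := AddSubgroup.mem_map.1 hw
    exact ⟨v, hv, m, hm, rfl⟩
  · rintro ⟨v, hv, m, hm, rfl⟩
    exact ⟨v, hv, _, AddSubgroup.mem_map.2 ⟨m, hm, rfl⟩, rfl⟩

lemma VV_le_succ (t : Q) (A0 : AddSubgroup A) (n : ℕ) : VV t A0 n ≤ VV t A0 (n + 1) :=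
  le_sup_left

lemma VV_smul {t : Q} {A0 : AddSubgroup A} :
    ∀ {n : ℕ} {x : A}, x ∈ VV t A0 n → t • x ∈ VV t A0 (n + 1)
  | 0, x, hx => by
      have : x = 0 := hx
      rw [this, smul_zero]
      exact zero_mem _
  | n + 1, x, hx => by
      obtain ⟨v, hv, m, hm, rfl⟩ := VV_succ_mem.1 hx
      refine VV_succ_mem.2 ⟨t • v, VV_smul hv, m, hm, ?_⟩
      rw [smul_add, smul_smul, ← pow_succ']

lemma VV_pow_smul {t : Q} {A0 : AddSubgroup A} {n : ℕ} {x : A} (hx : x ∈ VV t A0 n) (j : ℕ) :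
    t ^ j • x ∈ VV t A0 (n + j) := by
  induction j with
  | zero => simpa using hx
  | succ j ih =>
    rw [pow_succ', ← smul_smul]
    exact VV_smul ih

lemma VV_mono {t : Q} {A0 : AddSubgroup A} {m n : ℕ} (h : m ≤ n) : VV t A0 m ≤ VV t A0 n :=
  monotone_nat_of_le_succ (VV_le_succ t A0) h

lemma conj_pow_mem {K : Subgroup Q} {t : Q} (h : ∀ k ∈ K, t * k * t⁻¹ ∈ K) (n : ℕ) :
    ∀ k ∈ K, t ^ n * k * (t ^ n)⁻¹ ∈ K := by
  induction n with
  | zero => intro k hk; simpa using hk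
  | succ n ih =>
    intro k hk
    have h1 := h _ (ih k hk)
    have h2 : t ^ (n + 1) * k * (t ^ (n + 1))⁻¹ = t * (t ^ n * k * (t ^ n)⁻¹) * t⁻¹ := by
      rw [pow_succ', mul_inv_rev]
      simp only [mul_assoc]
    rw [h2]
    exact h1

lemma conj_pow_mem' {K : Subgroup Q} {t : Q} (h : ∀ k ∈ K, t⁻¹ * k * t ∈ K) (n : ℕ) :
    ∀ k ∈ K, (t ^ n)⁻¹ * k * t ^ n ∈ K := by
  intro k hk
  have := conj_pow_mem (t := t⁻¹) (K := K) (by simpa using h) n k hk
  simpa using this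

lemma VV_stab {K : Subgroup Q} {t : Q} {A0 : AddSubgroup A} (hs : Stab K A0)
    (h : ∀ k ∈ K, t⁻¹ * k * t ∈ K) : ∀ n : ℕ, Stab K (VV t A0 n)
  | 0 => by
      intro q _ x hx
      have : x = 0 := hx
      rw [this, smul_zero]
      exact zero_mem _
  | n + 1 => by
      intro q hq x hx
      obtain ⟨v, hv, m, hm, rfl⟩ := VV_succ_mem.1 hx
      refine VV_succ_mem.2 ⟨q • v, VV_stab hs h n q hq v hv, ((t ^ n)⁻¹ * q * t ^ n) • m,
        hs _ (conj_pow_mem' h n q hq) m hm, ?_⟩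
      rw [smul_add, smul_smul, smul_smul]
      simp [mul_assoc]

/-- The leading coefficients in degree `n`. -/
def Lf (t : Q) (A0 : AddSubgroup A) (n : ℕ) (N : AddSubgroup A) : AddSubgroup A :=
  A0 ⊓ (N ⊔ VV t A0 n).comap (DistribSMul.toAddMonoidHom A (t ^ n))

lemma mem_Lf {t : Q} {A0 : AddSubgroup A} {n : ℕ} {N : AddSubgroup A} {m : A} :
    m ∈ Lf t A0 n N ↔ m ∈ A0 ∧ t ^ n • m ∈ N ⊔ VV t A0 n := Iff.rfl

lemma Lf_stab {K : Subgroup Q} {t : Q} {A0 : AddSubgroup A} (hs : Stab K A0)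
    (h : ∀ k ∈ K, t * k * t⁻¹ ∈ K ∧ t⁻¹ * k * t ∈ K) (n : ℕ) {N : AddSubgroup A}
    (hN : Stab K N) : Stab K (Lf t A0 n N) := by
  intro q hq m hm
  obtain ⟨h1, h2⟩ := mem_Lf.1 hm
  refine mem_Lf.2 ⟨hs q hq m h1, ?_⟩
  obtain ⟨y, hy, v, hv, he⟩ := AddSubgroup.mem_sup.1 h2
  have hc := conj_pow_mem (fun k hk => (h k hk).1) n q hq
  have h3 : t ^ n • q • m = (t ^ n * q * (t ^ n)⁻¹) • (t ^ n • m) := by
    rw [smul_smul, smul_smul]
    simp
  rw [h3, ← he, smul_add]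
  exact AddSubgroup.mem_sup.2 ⟨_, hN _ hc y hy, _,
    VV_stab hs (fun k hk => (h k hk).2) n _ hc v hv, rfl⟩

lemma Lf_le_succ {t : Q} {A0 : AddSubgroup A} (n : ℕ) {N : AddSubgroup A}
    (hN : ∀ m ∈ N, t • m ∈ N) : Lf t A0 n N ≤ Lf t A0 (n + 1) N := by
  intro m hm
  obtain ⟨h1, h2⟩ := mem_Lf.1 hm
  refine mem_Lf.2 ⟨h1, ?_⟩
  obtain ⟨y, hy, v, hv, he⟩ := AddSubgroup.mem_sup.1 h2
  rw [pow_succ', ← smul_smul, ← he, smul_add]
  exact AddSubgroup.mem_sup.2 ⟨_, hN y hy, _, VV_smul hv, rfl⟩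

lemma Lf_mono_right {t : Q} {A0 : AddSubgroup A} (n : ℕ) {N N2 : AddSubgroup A}
    (h : N ≤ N2) : Lf t A0 n N ≤ Lf t A0 n N2 := by
  intro m hm
  obtain ⟨h1, h2⟩ := mem_Lf.1 hm
  exact mem_Lf.2 ⟨h1, (sup_le_sup_right h _) h2⟩

lemma Lf_mono_left {t : Q} {A0 : AddSubgroup A} {n n' : ℕ} {N : AddSubgroup A}
    (hN : ∀ m ∈ N, t • m ∈ N) (h : n ≤ n') : Lf t A0 n N ≤ Lf t A0 n' N :=
  monotone_nat_of_le_succ (fun n => Lf_le_succ n hN) h

lemma absorb_aux {t : Q} {A0 : AddSubgroup A} {N N2 : AddSubgroup A} (h : N ≤ N2)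
    (hL : ∀ n, Lf t A0 n N2 ≤ Lf t A0 n N) :
    ∀ (n : ℕ) (y : A), y ∈ N2 → y ∈ VV t A0 n → y ∈ N
  | 0, y, _, hy => by
      have : y = 0 := hy
      rw [this]
      exact zero_mem _
  | n + 1, y, hy2, hy => by
      obtain ⟨v, hv, m, hm, he⟩ := VV_succ_mem.1 hy
      have h1 : t ^ n • m = y + -v := by
        rw [← he]; abel
      have h2 : m ∈ Lf t A0 n N2 := mem_Lf.2 ⟨hm, by
        rw [h1]
        exact AddSubgroup.mem_sup.2 ⟨y, hy2, -v, neg_mem hv, rfl⟩⟩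
      obtain ⟨z, hz, v', hv', he'⟩ := AddSubgroup.mem_sup.1 (mem_Lf.1 (hL n h2)).2
      have h3 : y - z = v + v' := by
        rw [← he, ← he']; abel
      have h4 : y - z ∈ N := absorb_aux h hL n (y - z) (sub_mem hy2 (h hz)) (by
        rw [h3]; exact add_mem hv hv')
      have h5 : y = (y - z) + z := by abel
      rw [h5]
      exact add_mem h4 hz

lemma exists_VV {t : Q} {A0 : AddSubgroup A} {y : A} (hy : y ∈ Sp (Subgroup.zpowers t) A0) :
    ∃ j n : ℕ, t ^ j • y ∈ VV t A0 n := by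
  unfold Sp at hy
  induction hy using AddSubgroup.closure_induction with
  | mem x hx =>
    obtain ⟨q, hq, m, hm, rfl⟩ := hx
    obtain ⟨i, rfl⟩ := Subgroup.mem_zpowers_iff.1 hq
    refine ⟨i.natAbs, (i.natAbs + i).toNat + 1, ?_⟩
    refine VV_succ_mem.2 ⟨0, zero_mem _, m, hm, ?_⟩
    rw [zero_add, smul_smul]
    congr 1
    rw [← zpow_natCast, ← zpow_natCast, ← zpow_add]
    congr 1
    omega
  | zero => exact ⟨0, 0, by rw [smul_zero]; exact zero_mem _⟩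
  | add x y _ _ hx hy =>
    obtain ⟨j1, n1, h1⟩ := hx
    obtain ⟨j2, n2, h2⟩ := hy
    refine ⟨j1 + j2, (n1 + j2) + (n2 + j1), ?_⟩
    rw [smul_add]
    refine add_mem ?_ ?_
    · have := VV_pow_smul h1 j2
      rw [smul_smul, ← pow_add, add_comm j2 j1] at this
      exact VV_mono (by omega) this
    · have := VV_pow_smul h2 j1
      rw [smul_smul, ← pow_add] at this
      exact VV_mono (by omega) this
  | neg x _ hx =>
    obtain ⟨j, n, h⟩ := hx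
    refine ⟨j, n, ?_⟩
    rw [smul_neg]
    exact neg_mem h

lemma absorb {t : Q} {A0 : AddSubgroup A} {N N2 : AddSubgroup A} (h : N ≤ N2)
    (hN : ∀ m ∈ N, t⁻¹ • m ∈ N) (hN2 : ∀ m ∈ N2, t • m ∈ N2)
    (hle : N2 ≤ Sp (Subgroup.zpowers t) A0)
    (hL : ∀ n, Lf t A0 n N2 ≤ Lf t A0 n N) : N2 ≤ N := by
  intro y hy
  obtain ⟨j, n, hjn⟩ := exists_VV (hle hy)
  have h1 : ∀ j : ℕ, t ^ j • y ∈ N2 := by
    intro j
    induction j with
    | zero => simpa using hy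
    | succ j ih =>
      rw [pow_succ', ← smul_smul]
      exact hN2 _ ih
  have h2 : t ^ j • y ∈ N := absorb_aux h hL n _ (h1 j) hjn
  have h3 : ∀ (j : ℕ) (x : A), t ^ j • x ∈ N → x ∈ N := by
    intro j
    induction j with
    | zero => intro x hx; simpa using hx
    | succ j ih =>
      intro x hx
      apply ih
      have := hN _ hx
      rwa [pow_succ', ← smul_smul, inv_smul_smul] at this
  exact h3 j y h2

end HBS

theorem pf_HBS : T_HBS := by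
  intro Q A _ _ _ K t A0 hs hmax hconj f hf hfle hfst
  have hK : ∀ n, Stab K (f n) := fun n q hq m hm =>
    hfst n q ((le_sup_left : K ≤ K ⊔ Subgroup.zpowers t) hq) m hm
  have ht : ∀ n, ∀ m ∈ f n, t • m ∈ f n := fun n m hm =>
    hfst n t ((le_sup_right : Subgroup.zpowers t ≤ K ⊔ Subgroup.zpowers t)
      (Subgroup.mem_zpowers t)) m hm
  have hti : ∀ n, ∀ m ∈ f n, t⁻¹ • m ∈ f n := fun n m hm =>
    hfst n t⁻¹ ((le_sup_right : Subgroup.zpowers t ≤ K ⊔ Subgroup.zpowers t)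
      (inv_mem (Subgroup.mem_zpowers t))) m hm
  -- the double family
  have hmono : ∀ {n n' j j' : ℕ}, n ≤ n' → j ≤ j' → Lf t A0 n (f j) ≤ Lf t A0 n' (f j') :=
    fun h1 h2 => (Lf_mono_left (ht _) h1).trans (Lf_mono_right _ (hf h2))
  obtain ⟨n0, hn0⟩ := hmax (fun n => Lf t A0 n (f n)) (fun a b hab => hmono hab hab)
    (fun n => inf_le_left) (fun n => Lf_stab hs hconj n (hK n))
  have hcol : ∀ n, ∃ j, ∀ m, j ≤ m → Lf t A0 n (f m) = Lf t A0 n (f j) := fun n =>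
    hmax (fun j => Lf t A0 n (f j)) (fun a b hab => hmono le_rfl hab)
      (fun j => inf_le_left) (fun j => Lf_stab hs hconj n (hK j))
  choose J hJ using hcol
  refine ⟨n0 + ∑ n ∈ Finset.range n0, J n, fun m hm => ?_⟩
  set j0 := n0 + ∑ n ∈ Finset.range n0, J n with hj0
  refine le_antisymm ?_ (hf hm)
  refine absorb (t := t) (A0 := A0) (hf hm) (hti _) (ht _) (hfle _) (fun n => ?_)
  rcases lt_or_ge n n0 with hn | hn
  · have h1 : J n ≤ j0 := by
      have : J n ≤ ∑ n ∈ Finset.range n0, J n :=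
        Finset.single_le_sum (f := J) (fun _ _ => Nat.zero_le _) (Finset.mem_range.2 hn)
      omega
    rw [hJ n m (h1.trans hm), hJ n j0 h1]
  · have h2 : Lf t A0 n (f m) ≤ Lf t A0 (max n m) (f (max n m)) :=
      hmono (le_max_left _ _) (le_max_right _ _)
    have h3 := hn0 (max n m) (hn.trans (le_max_left _ _))
    have h4 : Lf t A0 (max n m) (f (max n m)) = Lf t A0 n0 (f n0) := h3
    rw [h4] at h2
    exact h2.trans (hmono hn (by omega))

end Pool.Agent.H27.HG
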