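import Pool.Agent.H3.HG.Targets

/-!
Row POL of the board on lower central genera: P. Hall's theorem for finitely generated
nilpotent groups.
-/

namespace Pool.Agent.H27.HG

open Pool.Agent.H3.HG

/-- Ascending chains of subgroups are stationary if all subgroups are finitely generated. -/
lemma chain_stat {Q : Type} [Group Q] (hfg : ∀ K : Subgroup Q, K.FG) (f : ℕ → Subgroup Q)
    (hf : Monotone f) : ∃ n, ∀ m, n ≤ m → f m = f n := by
  obtain ⟨S, hS⟩ := hfg (⨆ n, f n)
  have h1 : ∀ s ∈ S, ∃ n, s ∈ f n := fun s hs => by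
    have : s ∈ ⨆ n, f n := by
      rw [← hS]
      exact Subgroup.subset_closure hs
    exact (Subgroup.mem_iSup_of_directed hf.directed_le).1 this
  choose! g hg using h1
  refine ⟨S.sup g, fun m hm => le_antisymm ?_ (hf hm)⟩
  calc f m ≤ ⨆ n, f n := le_iSup f m
    _ = Subgroup.closure (S : Set Q) := hS.symm
    _ ≤ f (S.sup g) := by
      rw [Subgroup.closure_le]
      intro s hs
      exact hf (Finset.le_sup hs) (hg s hs)

section POL

variable {Q A : Type} [Group Q] [AddCommGroup A] [DistribMulAction Q A]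

lemma smul_mem_closure {S : Set A} {q : Q} (h : ∀ x ∈ S, q • x ∈ AddSubgroup.closure S) {x : A}
    (hx : x ∈ AddSubgroup.closure S) : q • x ∈ AddSubgroup.closure S := by
  induction hx using AddSubgroup.closure_induction with
  | mem x hx => exact h x hx
  | zero => rw [smul_zero]; exact zero_mem _
  | add x y _ _ hx hy => rw [smul_add]; exact add_mem hx hy
  | neg x _ hx => rw [smul_neg]; exact neg_mem hx

lemma le_Sp (K : Subgroup Q) (A0 : AddSubgroup A) : A0 ≤ Sp K A0 := fun m hm =>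
  AddSubgroup.subset_closure ⟨1, one_mem _, m, hm, (one_smul _ _).symm⟩

lemma Sp_stab (K : Subgroup Q) (A0 : AddSubgroup A) : Stab K (Sp K A0) := by
  intro q hq m hm
  refine smul_mem_closure ?_ hm
  rintro x ⟨k, hk, a, ha, rfl⟩
  exact AddSubgroup.subset_closure ⟨q * k, mul_mem hq hk, a, ha, by rw [mul_smul]⟩

lemma Sp_le {K : Subgroup Q} {A0 B : AddSubgroup A} (h : A0 ≤ B) (hB : Stab K B) :
    Sp K A0 ≤ B := by
  unfold Sp
  rw [AddSubgroup.closure_le]
  rintro x ⟨k, hk, a, ha, rfl⟩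
  exact hB k hk a (h ha)

/-- The elements that stabilise an additive subgroup together with their inverses. -/
lemma stab_sup {K L : Subgroup Q} {B : AddSubgroup A} (hK : Stab K B) (hL : Stab L B) :
    Stab (K ⊔ L) B := by
  let P : Subgroup Q :=
    { carrier := {q | (∀ m ∈ B, q • m ∈ B) ∧ (∀ m ∈ B, q⁻¹ • m ∈ B)}
      mul_mem' := by
        rintro a b ⟨ha, ha'⟩ ⟨hb, hb'⟩
        refine ⟨fun m hm => ?_, fun m hm => ?_⟩
        · rw [mul_smul]; exact ha _ (hb _ hm)
        · rw [mul_inv_rev, mul_smul]; exact hb' _ (ha' _ hm)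
      one_mem' := by
        refine ⟨fun m hm => ?_, fun m hm => ?_⟩
        · rwa [one_smul]
        · rwa [inv_one, one_smul]
      inv_mem' := by
        rintro a ⟨ha, ha'⟩
        refine ⟨ha', fun m hm => ?_⟩
        rw [inv_inv]
        exact ha m hm }
  have h1 : K ⊔ L ≤ P := by
    refine sup_le (fun q hq => ⟨hK q hq, hK q⁻¹ (inv_mem hq)⟩)
      (fun q hq => ⟨hL q hq, hL q⁻¹ (inv_mem hq)⟩)
  intro q hq m hm
  exact (h1 hq).1 m hm

lemma maxC_bot (A0 : AddSubgroup A) (h : A0.FG) : MaxC (⊥ : Subgroup Q) A0 := by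
  intro f hf hle _
  have h1 : AddGroup.FG A0 := (AddGroup.fg_iff_addSubgroup_fg A0).2 h
  have h2 : Module.Finite ℤ A0 := Module.Finite.iff_addGroup_fg.2 h1
  have h3 : IsNoetherian ℤ A0 := isNoetherian_of_isNoetherianRing_of_finite ℤ A0
  let g : ℕ →o Submodule ℤ A0 :=
    { toFun := fun n => AddSubgroup.toIntSubmodule ((f n).addSubgroupOf A0)
      monotone' := by
        intro a b hab x hx
        exact hf hab hx }
  obtain ⟨n, hn⟩ := monotone_stabilizes_iff_noetherian.2 h3 g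
  refine ⟨n, fun m hm => ?_⟩
  have h4 := hn m hm
  have h5 : (f n).addSubgroupOf A0 = (f m).addSubgroupOf A0 :=
    AddSubgroup.toIntSubmodule.injective h4
  have h6 := AddSubgroup.addSubgroupOf_inj.1 h5
  rw [inf_eq_left.2 (hle n), inf_eq_left.2 (hle m)] at h6
  exact h6.symm

lemma maxC_mono {K : Subgroup Q} {A0 B : AddSubgroup A} (h : A0 ≤ B) (hB : MaxC K B) :
    MaxC K A0 := fun f hf hle hst => hB f hf (fun n => (hle n).trans h) hst

end POL

theorem pf_POL (hHBS : T_HBS) : T_POL := by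
  intro Q A _ _ _ _ hfg A0 hA0 htop
  have hwf : WellFoundedGT (Subgroup Q) := by
    rw [wellFoundedGT_iff_monotone_chain_condition]
    intro a
    obtain ⟨n, hn⟩ := chain_stat hfg a a.monotone
    exact ⟨n, fun m hm => (hn m hm).symm⟩
  have hne : {K : Subgroup Q | MaxC K (Sp K A0)}.Nonempty := by
    refine ⟨⊥, ?_⟩
    have h1 : Sp (⊥ : Subgroup Q) A0 ≤ A0 := by
      refine Sp_le le_rfl ?_
      intro q hq m hm
      have : q = 1 := Subgroup.mem_bot.1 hq
      rw [this, one_smul]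
      exact hm
    exact maxC_mono h1 (maxC_bot A0 hA0)
  obtain ⟨K, hK, hmax⟩ := hwf.wf.has_min _ hne
  have hK' : MaxC K (Sp K A0) := hK
  rcases eq_or_ne K ⊤ with hKt | hKt
  · subst hKt
    rwa [htop] at hK'
  exfalso
  have h1 := Group.normalizerCondition_of_isNilpotent (G := Q) K (lt_top_iff_ne_top.2 hKt)
  obtain ⟨t, ht, htK⟩ := SetLike.exists_of_lt h1
  have hc1 : ∀ k ∈ K, t * k * t⁻¹ ∈ K := fun k hk => (Subgroup.mem_normalizer_iff.1 ht k).1 hk
  have hc2 : ∀ k ∈ K, t⁻¹ * k * t ∈ K := fun k hk => (Subgroup.mem_normalizer_iff''.1 ht k).1 hk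
  have h2 := hHBS Q A K t (Sp K A0) (Sp_stab K A0) hK' (fun k hk => ⟨hc1 k hk, hc2 k hk⟩)
  have h3 : Stab K (Sp (Subgroup.zpowers t) (Sp K A0)) := by
    intro q hq m hm
    refine smul_mem_closure ?_ hm
    rintro x ⟨z, hz, a, ha, rfl⟩
    refine AddSubgroup.subset_closure ⟨z, hz, (z⁻¹ * q * z) • a, ?_, ?_⟩
    · have hzn : z ∈ Subgroup.normalizer (K : Set Q) := by
        have : Subgroup.zpowers t ≤ Subgroup.normalizer (K : Set Q) := by
          rw [Subgroup.zpowers_le]
          exact ht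
        exact this hz
      exact Sp_stab K A0 _ ((Subgroup.mem_normalizer_iff''.1 hzn q).1 hq) a ha
    · rw [smul_smul, smul_smul]
      simp [mul_assoc]
  have h4 : Sp (K ⊔ Subgroup.zpowers t) A0 ≤ Sp (Subgroup.zpowers t) (Sp K A0) :=
    Sp_le ((le_Sp K A0).trans (le_Sp _ _)) (stab_sup h3 (Sp_stab _ _))
  have h5 : MaxC (K ⊔ Subgroup.zpowers t) (Sp (K ⊔ Subgroup.zpowers t) A0) := maxC_mono h4 h2
  refine hmax (K ⊔ Subgroup.zpowers t) h5 ?_
  show K < K ⊔ Subgroup.zpowers t
  refine lt_of_le_of_ne le_sup_left ?_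
  intro he
  apply htK
  rw [he]
  exact (le_sup_right : Subgroup.zpowers t ≤ K ⊔ Subgroup.zpowers t) (Subgroup.mem_zpowers t)

end Pool.Agent.H27.HG
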